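import Pool.Agent.W751.RV.Stm
import Pool.Agent.H402R2.SubMean

/-! The denominator is not small. -/

set_option autoImplicit false

open Polynomial Filter Topology MeasureTheory
open scoped ENNReal

namespace Pool.Agent.W74.RV

open Pool.Agent.W751.CD Pool.Agent.W751.CV Pool.Agent.W751.RV

lemma hk_pos {ρ : ℝ} (hρ : 0 < ρ) (k : ℕ) : 0 < hk ρ k := by
  unfold hk; positivity

lemma ZN_pos {ρ : ℝ} (hρ : 0 < ρ) (N : ℕ) : 0 < ZN ρ N := by
  unfold ZN
  exact mul_pos (by positivity) (Finset.prod_pos fun k _ => hk_pos hρ k)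

/-- the mean value inequality for `1 / Q` -/
lemma mean_bound (hQE : S_QE) {N : ℕ} {σ r δ : ℝ} (hσ : 0 < σ) (hδ : 0 < δ)
    (hr1 : (r + δ) * σ < 1) {q : Fin N → ℂ} (hq : ∀ i, ‖q i‖ ≤ σ) {w : ℂ}
    (hw : ‖w‖ ≤ r) :
    (Q q).eval w ≠ 0 ∧ ENNReal.ofReal ((‖(Q q).eval w‖ ^ 2)⁻¹ * (Real.pi * δ ^ 2)) ≤
      ∫⁻ x in Metric.ball 0 (r + δ), ENNReal.ofReal ((‖(Q q).eval x‖ ^ 2)⁻¹) := by
  have hne : ∀ x : ℂ, ‖x‖ < r + δ → (Q q).eval x ≠ 0 := by
    intro x hx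
    rw [hQE.1, Finset.prod_ne_zero_iff]
    intro i _ h0
    have h1 : q i * x = 1 := (sub_eq_zero.1 h0).symm
    have h2 : ‖q i‖ * ‖x‖ = 1 := by rw [← norm_mul, h1, norm_one]
    have h3 : ‖q i‖ * ‖x‖ ≤ σ * (r + δ) :=
      mul_le_mul (hq i) hx.le (norm_nonneg _) hσ.le
    nlinarith
  refine ⟨hne w (by linarith), ?_⟩
  have hd : DifferentiableOn ℂ (fun x => ((Q q).eval x)⁻¹) (Metric.ball w δ) := by
    intro x hx
    have hx1 : ‖x‖ < r + δ := by
      have h1 : ‖x‖ ≤ ‖x - w‖ + ‖w‖ := by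
        have := norm_add_le (x - w) w
        rwa [sub_add_cancel] at this
      rw [Metric.mem_ball, dist_eq_norm] at hx
      linarith
    exact (((Q q).differentiable x).inv (hne x hx1)).differentiableWithinAt
  have h1 := Pool.Agent.H402R2.SubMean.rpow_mul_le_lintegral hδ two_pos hd
  have e1 : ‖((Q q).eval w)⁻¹‖ ^ (2 : ℝ) = (‖(Q q).eval w‖ ^ 2)⁻¹ := by
    rw [Real.rpow_two, norm_inv, inv_pow]
  rw [e1] at h1
  refine h1.trans ?_
  have hsub : Metric.ball w δ ⊆ Metric.ball (0 : ℂ) (r + δ) := by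
    intro x hx
    rw [mem_ball_zero_iff]
    rw [Metric.mem_ball, dist_eq_norm] at hx
    have h1 : ‖x‖ ≤ ‖x - w‖ + ‖w‖ := by
      have := norm_add_le (x - w) w
      rwa [sub_add_cancel] at this
    linarith
  refine (lintegral_mono_set hsub).trans (le_of_eq ?_)
  refine lintegral_congr fun x => ?_
  rw [← ofReal_norm, ENNReal.ofReal_rpow_of_nonneg (norm_nonneg _) (by norm_num), Real.rpow_two,
    norm_inv, inv_pow]

lemma meas_Q (hQE : S_QE) (N : ℕ) :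
    Measurable (fun p : (Fin N → ℂ) × ℂ => ENNReal.ofReal ((‖(Q p.1).eval p.2‖ ^ 2)⁻¹)) := by
  have h1 : Continuous (fun p : (Fin N → ℂ) × ℂ => (Q p.1).eval p.2) := by
    simp_rw [hQE.1]
    fun_prop
  exact ((h1.norm.pow 2).measurable.inv).ennreal_ofReal

theorem sq : S_SQ := by
  intro hZ hQE hNQ σ r hσ hr hrσ
  set δ : ℝ := (1 / σ - r) / 2 with hδd
  have hδ : 0 < δ := by
    rw [hδd]
    have : r < 1 / σ := by rwa [lt_div_iff₀ hσ]
    linarith
  have hr1 : (r + δ) * σ < 1 := by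
    have : (r + δ) * σ = (r * σ + 1) / 2 := by
      rw [hδd]; field_simp; ring
    rw [this]; linarith
  have hc : 0 < 1 - (r + δ) * σ := by linarith
  refine ⟨(r + δ) ^ 2 / (δ ^ 2 * (1 - (r + δ) * σ) ^ 2), by positivity, ?_⟩
  intro N hN ε hε
  obtain ⟨hZ1, hZ2⟩ := hZ σ N hσ
  have hfin : IsFiniteMeasure (mu σ N) := ⟨by rw [hZ1]; exact ENNReal.ofReal_lt_top⟩
  have hZp := ZN_pos hσ N
  set I : (Fin N → ℂ) → ℝ≥0∞ := fun q =>
    ∫⁻ x in Metric.ball 0 (r + δ), ENNReal.ofReal ((‖(Q q).eval x‖ ^ 2)⁻¹) with hI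
  have hIm : Measurable I := by
    rw [hI]
    exact (meas_Q hQE N).lintegral_prod_right
  set c : ℝ := (ε ^ 2)⁻¹ * (Real.pi * δ ^ 2) with hcd
  have hcp : 0 < c := by rw [hcd]; positivity
  -- inclusion
  have hsub : {q : Fin N → ℂ | ∃ w : ℂ, ‖w‖ ≤ r ∧ ‖(Q q).eval w‖ < ε} ⊆
      {q | ENNReal.ofReal c ≤ I q} ∪ {q | ¬ ∀ i, ‖q i‖ ≤ σ} := by
    rintro q ⟨w, hw, hwε⟩
    by_cases hq : ∀ i, ‖q i‖ ≤ σ
    · left
      obtain ⟨h1, h2⟩ := mean_bound hQE hσ hδ hr1 hq hw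
      refine le_trans (ENNReal.ofReal_le_ofReal ?_) h2
      rw [hcd]
      refine mul_le_mul_of_nonneg_right ?_ (by positivity)
      have h3 : 0 < ‖(Q q).eval w‖ := norm_pos_iff.2 h1
      exact inv_anti₀ (by positivity) (pow_le_pow_left₀ h3.le hwε.le 2)
    · right; exact hq
  -- the expectation
  have hexp : ∫⁻ q, I q ∂(mu σ N) ≤
      ENNReal.ofReal (Real.pi * (r + δ) ^ 2 * (N / (1 - (r + δ) * σ) ^ 2 * ZN σ N)) := by
    rw [hI]
    rw [lintegral_lintegral_swap (meas_Q hQE N).aemeasurable]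
    calc ∫⁻ x in Metric.ball 0 (r + δ), ∫⁻ q, ENNReal.ofReal ((‖(Q q).eval x‖ ^ 2)⁻¹) ∂(mu σ N)
        ≤ ∫⁻ x in Metric.ball (0 : ℂ) (r + δ),
            ENNReal.ofReal (N / (1 - (r + δ) * σ) ^ 2 * ZN σ N) := by
          refine setLIntegral_mono' measurableSet_ball fun x hx => ?_
          rw [mem_ball_zero_iff] at hx
          have h1 : ‖x‖ * σ < (r + δ) * σ := mul_lt_mul_of_pos_right hx hσ
          refine (hNQ σ N x hσ hN (by linarith)).trans (ENNReal.ofReal_le_ofReal ?_)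
          refine mul_le_mul_of_nonneg_right ?_ hZp.le
          refine div_le_div_of_nonneg_left (by positivity) (by positivity) ?_
          exact pow_le_pow_left₀ hc.le (by linarith) 2
      _ = ENNReal.ofReal (Real.pi * (r + δ) ^ 2 * (N / (1 - (r + δ) * σ) ^ 2 * ZN σ N)) := by
          have hv : volume (Metric.ball (0 : ℂ) (r + δ)) =
              ENNReal.ofReal (Real.pi * (r + δ) ^ 2) := by
            rw [Complex.volume_ball, ENNReal.ofReal_mul Real.pi_pos.le,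
              ENNReal.ofReal_pow (by positivity), mul_comm]
            congr 1
            rw [← NNReal.coe_real_pi, ENNReal.ofReal_coe_nnreal]
          rw [lintegral_const, Measure.restrict_apply MeasurableSet.univ, Set.univ_inter, hv,
            mul_comm, ← ENNReal.ofReal_mul (by positivity)]
  calc mu σ N {q | ∃ w : ℂ, ‖w‖ ≤ r ∧ ‖(Q q).eval w‖ < ε}
      ≤ mu σ N {q | ENNReal.ofReal c ≤ I q} + mu σ N {q | ¬ ∀ i, ‖q i‖ ≤ σ} :=
        (measure_mono hsub).trans (measure_union_le _ _)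
    _ = mu σ N {q | ENNReal.ofReal c ≤ I q} := by rw [hZ2, add_zero]
    _ ≤ (∫⁻ q, I q ∂(mu σ N)) / ENNReal.ofReal c :=
        meas_ge_le_lintegral_div hIm.aemeasurable (ENNReal.ofReal_pos.2 hcp).ne'
          ENNReal.ofReal_ne_top
    _ ≤ ENNReal.ofReal (Real.pi * (r + δ) ^ 2 * (N / (1 - (r + δ) * σ) ^ 2 * ZN σ N)) /
        ENNReal.ofReal c := ENNReal.div_le_div_right hexp _
    _ = ENNReal.ofReal ((r + δ) ^ 2 / (δ ^ 2 * (1 - (r + δ) * σ) ^ 2) * N * ε ^ 2 * ZN σ N) := by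
        rw [← ENNReal.ofReal_div_of_pos hcp]
        congr 1
        rw [hcd]
        have hpi := Real.pi_pos.ne'
        field_simp

end Pool.Agent.W74.RV
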